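import Mathlib
import Pool.Agent.Q263.BP.Fix

/-!
# MP_8a294c_nt, Q1: the second binary digit of coloured binary partition counts

The question asks whether for every `k ≥ 1` and `m = 2 ^ (2 k) - 1` the sequence `u_m(n)`,
`n ≥ 1`, is bounded. The answer is no: for `k = 5`, `m = 1023`, the sequence takes every
integer value `T ≥ 13` (in particular it is unbounded).
-/

namespace Pool.Agent.Results.MP_8a294c_nt.SecondDigitUnbounded

open PowerSeries
open scoped PowerSeries.WithPiTopology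

/-- The denominator `(1 - x) ^ m * ∏_{j ≥ 0} (1 - x ^ (2 ^ j)) ^ m` as a formal power series. -/
noncomputable def den (m : ℕ) : ℤ⟦X⟧ := (1 - X) ^ m * ∏' j : ℕ, (1 - X ^ (2 ^ j)) ^ m

/-- The generating function `(1 - x) ^ (-m) * ∏_{j ≥ 0} (1 - x ^ (2 ^ j)) ^ (-m)`, the inverse
of the denominator, which has constant coefficient `1` (see `gf_mul_den`). -/
noncomputable def gf (m : ℕ) : ℤ⟦X⟧ := invOfUnit (den m) 1

/-- The integers `c_m(n)`. -/
noncomputable def c (m n : ℕ) : ℤ := coeff n (gf m)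

/-- The odd part `q` of `a = 2 ^ e * q`. -/
def oddPart (a : ℤ) : ℤ := a / 2 ^ padicValInt 2 a

/-- `u_m(n) = ν₂(q - 1)`, where `q` is the odd part of `c_m(n)`; it is infinite if `q = 1`. -/
noncomputable def u (m n : ℕ) : ℕ∞ := emultiplicity 2 (oddPart (c m n) - 1)

/-- The generating function is the inverse of the denominator. -/
theorem gf_mul_den (m : ℕ) : gf m * den m = 1 := by
  apply invOfUnit_mul
  have h : constantCoeff (Q263.BP.P m) = 1 := Q263.BP.constantCoeff_P m
  have e : den m = (1 - X) ^ m * Q263.BP.P m := rfl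
  rw [e, map_mul, h]
  simp

/-- Negation of Q1 with `k = 5`, in a strong form: for `m = 2 ^ (2 * 5) - 1` every integer
`T ≥ 13` is a value `u_m(n)`, `n ≥ 1`. -/
theorem result : ∀ T : ℕ, 13 ≤ T → ∃ n : ℕ, 1 ≤ n ∧ u (2 ^ (2 * 5) - 1) n = T := by
  intro T hT
  obtain ⟨i, rfl⟩ := Nat.exists_eq_add_of_le hT
  have hs : Q263.BP.SelfSim (fun i => coeff i (Q263.BP.B ^ 1023)) (c 1023) :=
    Q263.BP.selfSim_of 1023 (gf_mul_den 1023)
  obtain ⟨n, w, hn, hw⟩ := Q263.BP.unbounded hs i
  refine ⟨n, hn, ?_⟩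
  have h1 : (2 ^ (2 * 5) - 1 : ℕ) = 1023 := by norm_num
  rw [h1]
  have hodd : ¬ (2 : ℤ) ∣ 1 + 2 ^ (13 + i) * (1 + 2 * w) := by
    rw [pow_add]
    rintro ⟨z, hz⟩
    have : (1 : ℤ) = 2 * (z - 2 ^ 12 * 2 ^ i * (1 + 2 * w)) := by linear_combination hz
    omega
  have hne : 1 + 2 ^ (13 + i) * (1 + 2 * w) ≠ 0 := fun h => hodd (h ▸ dvd_zero _)
  have hval : padicValInt 2 (c 1023 n) = 11 := by
    have h2 : padicValInt 2 (2 ^ 11) = 11 := by
      unfold padicValInt
      rw [Int.natAbs_pow]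
      exact padicValNat.prime_pow 11
    rw [hw, padicValInt.mul (by norm_num) hne, padicValInt.eq_zero_of_not_dvd hodd, h2]
  have hq : oddPart (c 1023 n) = 1 + 2 ^ (13 + i) * (1 + 2 * w) := by
    unfold oddPart
    rw [hval, hw]
    exact Int.mul_ediv_cancel_left _ (by norm_num)
  unfold u
  rw [hq, add_sub_cancel_left]
  apply emultiplicity_eq_of_dvd_of_not_dvd (Dvd.intro _ rfl)
  rw [pow_succ]
  intro h
  have h2 := Int.dvd_of_mul_dvd_mul_left (by positivity) h
  omega

end Pool.Agent.Results.MP_8a294c_nt.SecondDigitUnbounded
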